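import Pool.Agent.Lib.MP_240c17_al.Q2.Fin
import Pool.Agent.Lib.MP_240c17_al.Q2.Abc.Final

/-!
# Subvarieties of N₂A: both questions, in both readings

Let `k` be an infinite field and `V` a variety of Lie algebras over `k`, contained in the variety `N₂A` of
(nilpotent of class at most 2)-by-abelian algebras.

Relative reading.  All relatively finitely presented algebras of `V` are residually finite dimensional if and
only if an identity (I) `∑ c_i [a y^i, b y^(m-i)] = 0` holds in `V`; over a computable field of characteristic `≠ 2` it is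
equivalent that this is so for the algebras with decidable word problem.

Absolute reading (characteristic `≠ 2`).  All finitely presented algebras of `V` are residually finite
dimensional if and only if `V ≠ N₂A`; over a computable field it is equivalent that this is so for the algebras with
decidable word problem.
-/

set_option autoImplicit false

namespace Pool.Agent.Results.MP_240c17_al.ClassTwoByAbelian

open Pool.Agent.Lib.MP_240c17_al Pool.Agent.Lib.MP_240c17_al.Q2

universe u

/-- (nilpotent of class at most 2)-by-abelian -/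
def IsN2A (L : Type u) [LieRing L] : Prop :=
  ∀ a b c d e f : L, ⁅⁅⁅a, b⁆, ⁅c, d⁆⁆, ⁅e, f⁆⁆ = 0

/-- the variety given by `Id` is contained in `N₂A` -/
def InN2A (k : Type u) [Field k] (Id : Set (FreeLieAlgebra k ℕ)) : Prop :=
  ∀ (L : Type u) [LieRing L] [LieAlgebra k L], InVariety Id L → IsN2A L

/-- the variety given by `Id` contains `N₂A` -/
def ContainsN2A (k : Type u) [Field k] (Id : Set (FreeLieAlgebra k ℕ)) : Prop :=
  ∀ (L : Type u) [LieRing L] [LieAlgebra k L], IsN2A L → InVariety Id L

/-- the variety satisfies a nontrivial identity `∑_{i=0}^m c_i [[a,y,…,y], [b,y,…,y]] = 0` (`y` occurs `i` times in the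
first and `m - i` times in the second factor) -/
def SatI (k : Type u) [Field k] (Id : Set (FreeLieAlgebra k ℕ)) : Prop :=
  ∃ (m : ℕ) (c : ℕ → k), (∃ i ≤ m, c i ≠ 0) ∧
    ∀ (L : Type u) [LieRing L] [LieAlgebra k L], InVariety Id L → ∀ a b y : L,
      ∑ i ∈ Finset.range (m + 1),
        c i • ⁅(fun l => ⁅l, y⁆)^[i] a, (fun l => ⁅l, y⁆)^[m - i] b⁆ = 0

/-- Q1, relative reading -/
def Q1Rel (k : Type u) [Field k] (Id : Set (FreeLieAlgebra k ℕ)) : Prop :=
  ∀ (L : Type u) [LieRing L] [LieAlgebra k L], RelFinitelyPresented Id L →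
    ResiduallyFiniteDimensional k L

/-- Q1, absolute reading -/
def Q1Abs (k : Type u) [Field k] (Id : Set (FreeLieAlgebra k ℕ)) : Prop :=
  ∀ (L : Type u) [LieRing L] [LieAlgebra k L], InVariety Id L → AbsFP k L →
    ResiduallyFiniteDimensional k L

/-- Q2, relative reading -/
def Q2Rel (k : Type u) [Field k] [Primcodable k] (Id : Set (FreeLieAlgebra k ℕ)) : Prop :=
  ∀ (L : Type u) [LieRing L] [LieAlgebra k L], RelFPDec Id L → ResiduallyFiniteDimensional k L

/-- Q2, absolute reading -/
def Q2Abs (k : Type u) [Field k] [Primcodable k] (Id : Set (FreeLieAlgebra k ℕ)) : Prop :=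
  ∀ (L : Type u) [LieRing L] [LieAlgebra k L], InVariety Id L → AbsFPDec k L →
    ResiduallyFiniteDimensional k L

/-- Let `k` be an infinite field and `V` the variety given by `Id`.
(1) Let `V` be contained in `N₂A`. Q1 in the relative reading holds for `V` if and only if `V` satisfies a
nontrivial identity (I) `∑_{i=0}^m c_i [[a,y,…,y], [b,y,…,y]] = 0`. If the characteristic is not 2 then Q1 in the
absolute reading holds for `V` if and only if `V` does not contain `N₂A`. If moreover `k` is computable then Q2 in the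
relative reading is equivalent to (I) and Q2 in the absolute reading holds if and only if `V` does not contain `N₂A`.
(2) Necessary conditions for all varieties `V` over a field of characteristic not 2: Q1 in the absolute reading implies
that `V` does not contain `N₂A`; if `k` is computable then Q2 in the relative reading implies (I) and Q2 in the absolute
reading implies that `V` does not contain `N₂A`. -/
theorem result (k : Type u) [Field k] [Infinite k] (Id : Set (FreeLieAlgebra k ℕ)) :
    (InN2A k Id →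
      (Q1Rel k Id ↔ SatI k Id) ∧
      ((2 : k) ≠ 0 → (Q1Abs k Id ↔ ¬ContainsN2A k Id)) ∧
      ∀ [Primcodable k] [CompField k], (2 : k) ≠ 0 →
        (Q2Rel k Id ↔ SatI k Id) ∧ (Q2Abs k Id ↔ ¬ContainsN2A k Id)) ∧
    ((2 : k) ≠ 0 → (Q1Abs k Id → ¬ContainsN2A k Id) ∧
      ∀ [Primcodable k] [CompField k],
        (Q2Rel k Id → SatI k Id) ∧ (Q2Abs k Id → ¬ContainsN2A k Id)) := by
  have A : (2 : k) ≠ 0 → Q1Abs k Id → ¬ContainsN2A k Id := by
    intro h2 h hc
    obtain ⟨J, S, hJ, hid, hn, -⟩ := ab k h2
    exact hn (h _ (hc _ hid) ⟨6, qMk J, S, qMk_surjective J, by rw [qMk_ker]; exact hJ⟩)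
  have B : ∀ [Primcodable k] [CompField k], (2 : k) ≠ 0 → Q2Abs k Id → ¬ContainsN2A k Id := by
    intro _ _ h2 h hc
    obtain ⟨J, S, hJ, hid, hn, hd⟩ := ab k h2
    exact hn (h _ (hc _ hid) ⟨6, qMk J, S, qMk_surjective J, by rw [qMk_ker]; exact hJ, hd⟩)
  have C : ∀ [Primcodable k] [CompField k], (2 : k) ≠ 0 → Q2Rel k Id → SatI k Id := by
    intro _ _ h2 h
    exact dw k h2 Id h
  refine ⟨fun hN => ?_, fun h2 => ⟨A h2, fun {_} {_} => ⟨C h2, B h2⟩⟩⟩
  have D : SatI k Id → Q1Rel k Id := fun h L _ _ hL => Abc.rel_suff k Id hN h L hL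
  have E : (2 : k) ≠ 0 → ¬ContainsN2A k Id → Q1Abs k Id := by
    intro h2 h L _ _ hL hfp
    unfold ContainsN2A at h
    push Not at h
    obtain ⟨L₀, _, _, hL₀, hL₁⟩ := h
    exact Abc.abs_suff k h2 Id hN L₀ hL₀ hL₁ L hL hfp
  refine ⟨⟨Nec1.necessary k Id, D⟩, fun h2 => ⟨A h2, E h2⟩, ?_⟩
  intro _ _ h2
  refine ⟨⟨C h2, ?_⟩, ⟨B h2, ?_⟩⟩
  · rintro h L _ _ ⟨n, π, S, hs, hk, -⟩
    exact D h L ⟨n, π, S, hs, hk⟩
  · rintro h L _ _ hL ⟨n, π, S, hs, hk, -⟩
    exact E h2 h L hL ⟨n, π, S, hs, hk⟩

end Pool.Agent.Results.MP_240c17_al.ClassTwoByAbelian
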