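import Pool.Agent.Lib.MP_240c17_al.Necessary
import Pool.Agent.Lib.MP_240c17_al.Two.Mod
import Pool.Agent.Lib.MP_240c17_al.Two.Hilbert
import Pool.Agent.Lib.MP_240c17_al.Two.Rfd
import Pool.Agent.Lib.MP_240c17_al.Two.Ann
import Pool.Agent.Lib.MP_240c17_al.Two.Integral
import Pool.Agent.Lib.MP_240c17_al.Two.Closed
import Pool.Agent.Lib.MP_240c17_al.Two.LieGen
import Pool.Agent.Lib.MP_240c17_al.Tor.Frob
import Pool.Agent.Lib.MP_240c17_al.Tor.PolyDiv
import Pool.Agent.Lib.MP_240c17_al.Tor.Torsion
import Pool.Agent.Lib.MP_240c17_al.Tor.Xfg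
import Pool.Agent.Lib.MP_240c17_al.Tor.Rel
import Pool.Agent.Lib.MP_240c17_al.Sol.Pbw
import Pool.Agent.Lib.MP_240c17_al.Sol.ExtGen
import Pool.Agent.Lib.MP_240c17_al.Semi.Ext
import Pool.Agent.Lib.MP_240c17_al.Semi.Ident
import Pool.Agent.Lib.MP_240c17_al.Rep.MapDv
import Pool.Agent.Lib.MP_240c17_al.Rep.LsFlat
import Pool.Agent.Lib.MP_240c17_al.Rep.LemTwo
import Pool.Agent.Lib.MP_240c17_al.Rep.Blocks
import Pool.Agent.Lib.MP_240c17_al.Rep.Enum
import Pool.Agent.Lib.MP_240c17_al.Rep.Shir
import Pool.Agent.Lib.MP_240c17_al.Rep.Comm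
import Pool.Agent.Lib.MP_240c17_al.Rep.RotDv
import Pool.Agent.Lib.MP_240c17_al.Rep.RotLyn
import Pool.Agent.Lib.MP_240c17_al.Rep.ShirLyn
import Pool.Agent.Lib.MP_240c17_al.Rep.LynFact
import Pool.Agent.Lib.MP_240c17_al.Rep.Brk
import Pool.Agent.Lib.MP_240c17_al.Rep.DvRed
import Pool.Agent.Lib.MP_240c17_al.Rep.PowRed
import Pool.Agent.Lib.MP_240c17_al.Rep.AssocNil
import Pool.Agent.Lib.MP_240c17_al.Rep.AssocFg
import Pool.Agent.Lib.MP_240c17_al.Rep.LieNil
import Pool.Agent.Lib.MP_240c17_al.Rep.LieFg
import Pool.Agent.Lib.MP_240c17_al.Rep.MidS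
import Pool.Agent.Lib.MP_240c17_al.Rep.GT
import Pool.Agent.Lib.MP_240c17_al.Rep.NilLine
import Pool.Agent.Lib.MP_240c17_al.Rep.GProps
import Pool.Agent.Lib.MP_240c17_al.Rep.PwNil
import Pool.Agent.Lib.MP_240c17_al.Rep.WdCof
import Pool.Agent.Lib.MP_240c17_al.Rep.X0One
import Pool.Agent.Lib.MP_240c17_al.Rep.X0Line
import Pool.Agent.Lib.MP_240c17_al.Rep.ClosedT2
import Pool.Agent.Lib.MP_240c17_al.Rep.ClosedQ2
import Pool.Agent.Lib.MP_240c17_al.Rep.Finish2
import Pool.Agent.Lib.MP_240c17_al.Rep.Kfg2
import Pool.Agent.Lib.MP_240c17_al.Rep.Gfg2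
import Pool.Agent.Lib.MP_240c17_al.Rep.DecId
import Pool.Agent.Lib.MP_240c17_al.Rep.OneClass
import Pool.Agent.Lib.MP_240c17_al.Rep.TauPoly
import Pool.Agent.Lib.MP_240c17_al.Rep.AltEnd
import Pool.Agent.Lib.MP_240c17_al.Rep.BaseChg
import Pool.Agent.Lib.MP_240c17_al.Rep.Model
import Pool.Agent.Lib.MP_240c17_al.Rep.Pack
import Pool.Agent.Lib.MP_240c17_al.Rep.Core
import Pool.Agent.Lib.MP_240c17_al.Rep.Final
import Pool.Agent.Lib.MP_240c17_al.Q2.Fin

/-!
# Varieties generated by Lie algebras of bounded dimension over extension fields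

(1) Let `k` be an infinite field and `V` any variety of Lie algebras over `k`.  If every relatively finitely
presented algebra of `V` is residually finite dimensional, then `V` satisfies a nontrivial identity (I)
`∑ c_i [a y^i, b y^(m-i)] = 0`.  If `k` is computable of characteristic `≠ 2`, it is enough that this is so for
the relatively finitely presented algebras with decidable word problem.

(2) Let `k` have characteristic `p > 0`, and assume that for every `n` the relatively free algebra of rank `n` is
residually of bounded dimension over extension fields of `k` (for example: `V` is generated by one Lie algebra which is finite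
dimensional over some extension field of `k`, or by a family of such algebras of bounded dimension).  If `V` satisfies (I)
with coefficients algebraic over the prime field, then all relatively finitely presented algebras of `V` are residually
finite dimensional.  So for `k` algebraic over the prime field this holds if and only if `V` satisfies (I), and
(`k` computable, `p ≠ 2`) if and only if it holds for the algebras with decidable word problem.

Method for (2).  If an algebra `B` over an algebraically closed field satisfies (I), then for `v ∈ B` the subspaces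
`A₀ = ker (ad v)^P` and `A_τ = ker ((ad v)^N - τ)` satisfy `[A_τ, A_τ'] = 0`, and the identities of `B` are those of the
subalgebras `A₀ + A_τ`; so `B` may be replaced by algebras with `(ad b)^(P+N) = τ(b) (ad b)^P` for all `b`, where `τ` is
a polynomial.  The relatively free algebra `F` is embedded in a product `X` of such algebras, on which the operators
`S_t` (multiplication with `τ (∑ t_j u_j)`) act.  The elements of `F` whose products with all monomials in the `S_t` are
in `F` modulo suitable smaller ideals form an ideal `G` of finite codimension, by Shirshov's theorem on words (with Lyndon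
words and their Lie polynomials `u_j`), and `G` is a Noetherian module over the commutative algebra generated by the `S_t`.
Then closedness of finitely generated submodules gives the ideals of finite codimension.
-/

set_option autoImplicit false

namespace Pool.Agent.Results.MP_240c17_al.Representable

open Pool.Agent.Lib.MP_240c17_al Pool.Agent.Lib.MP_240c17_al.Two Pool.Agent.Lib.MP_240c17_al.Tor
  Pool.Agent.Lib.MP_240c17_al.Semi Pool.Agent.Lib.MP_240c17_al.Rep

universe u

/-- The property of the problem (relative reading): all algebras which are finitely presented relative to the variety are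
residually finite dimensional. -/
def AllResFin (k : Type u) [Field k] (Id : Set (FreeLieAlgebra k ℕ)) : Prop :=
  ∀ (L : Type u) [LieRing L] [LieAlgebra k L], RelFinitelyPresented Id L →
    ResiduallyFiniteDimensional k L

/-- The property of the second question (relative reading): all algebras which have a finite presentation relative to
the variety with decidable word problem are residually finite dimensional. -/
def AllResFinDec (k : Type u) [Field k] [Primcodable k] (Id : Set (FreeLieAlgebra k ℕ)) : Prop :=
  ∀ (L : Type u) [LieRing L] [LieAlgebra k L], Q2.RelFPDec Id L →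
    ResiduallyFiniteDimensional k L

/-- The variety satisfies the identity `∑_{i=0}^m c_i [[a,y,…,y], [b,y,…,y]] = 0` (`y` occurs `i` times in the first and
`m - i` times in the second factor). -/
def SatI (k : Type u) [Field k] (Id : Set (FreeLieAlgebra k ℕ)) (m : ℕ) (c : ℕ → k) : Prop :=
  ∀ (L : Type u) [LieRing L] [LieAlgebra k L], InVariety Id L → ∀ a b y : L,
    ∑ i ∈ Finset.range (m + 1),
      c i • ⁅(fun l => ⁅l, y⁆)^[i] a, (fun l => ⁅l, y⁆)^[m - i] b⁆ = 0

/-- The variety is residually bounded: for every `n` there is a `D` such that every element of the free Lie algebra of rank `n`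
outside the verbal ideal (i.e. which is not an identity of the variety) has a nonzero value in some Lie algebra of the
variety which has dimension at most `D` over an extension field of `k`. -/
def ResBounded (k : Type u) [Field k] (Id : Set (FreeLieAlgebra k ℕ)) : Prop :=
  ∀ n : ℕ, ∃ D : ℕ, ∀ f : FreeLieAlgebra k (Fin n), f ∉ verbalIdeal Id n →
    ∃ (K : Type u) (_ : Field K) (_ : Algebra k K) (A : Type u) (_ : LieRing A)
      (_ : LieAlgebra k A) (_ : LieAlgebra K A) (_ : IsScalarTower k K A),
      FiniteDimensional K A ∧ Module.finrank K A ≤ D ∧ InVariety Id A ∧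
        ∃ ρ : Fin n → A, FreeLieAlgebra.lift k ρ f ≠ 0

theorem core' : CoreProp.{u} := by
  have hShir : ShirProp := shir mapDv (lemTwo lsFlat) blocks enum_
  have hShirLyn : ShirLynProp := shirLyn hShir comm_ rotDv rotLyn
  have hNilA : AssocNilProp.{u} := assocNil hShirLyn dvRed powRed
  have hFgA : AssocFgProp.{u} := assocFg hShirLyn dvRed powRed
  exact core (brk lynFact) (lieNil hNilA) (lieFg hFgA) (gT midS) nilLine gProps pwNil wdCof
    (finish2 (rfd mod_) (annRel (ann mod_)) (sepFd (rfd mod_))
      (closedQ2 (closedT2 (x0Line x0One)))) kfg2 gfg2 frob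
    Sol.extGen cofFg xfg

/-- Let `k` be an infinite field and `V` a variety of Lie algebras over `k`.
(1) If all relatively finitely presented algebras of `V` are residually finite dimensional, then `V` satisfies a
nontrivial identity `∑_{i=0}^m c_i [[a,y,…,y], [b,y,…,y]] = 0` (`y` occurs `i` times in the first and `m - i` times in
the second factor). The same holds if `k` is computable of characteristic not 2 and all relatively finitely presented
algebras with decidable word problem are residually finite dimensional.
(2) Let `k` be of characteristic `p > 0` and let `V` be residually of bounded dimension in every finite rank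
(`ResBounded`). If `V` satisfies such an identity with coefficients algebraic over the prime field, then all relatively
finitely presented algebras of `V` are residually finite dimensional. In particular, if `k` is algebraic over the prime
field then this holds if and only if `V` satisfies a nontrivial identity of this form.
(3) `ResBounded` holds for the variety generated by any family of Lie algebras `A i`, where `A i` has dimension at most `D` over an
extension field `E i` of `k`. -/
theorem result (k : Type u) [Field k] [Infinite k] :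
    (∀ (Id : Set (FreeLieAlgebra k ℕ)),
      (AllResFin k Id → ∃ (m : ℕ) (c : ℕ → k), (∃ i ≤ m, c i ≠ 0) ∧ SatI k Id m c) ∧
      ((2 : k) ≠ 0 → ∀ [Primcodable k] [Q2.CompField k], AllResFinDec k Id →
        ∃ (m : ℕ) (c : ℕ → k), (∃ i ≤ m, c i ≠ 0) ∧ SatI k Id m c)) ∧
    (∀ (p : ℕ) [Fact p.Prime] [Algebra (ZMod p) k] (Id : Set (FreeLieAlgebra k ℕ)),
      ResBounded k Id → ((∃ (m : ℕ) (c : ℕ → k), (∃ i ≤ m, c i ≠ 0) ∧ (∀ i ≤ m, IsAlgebraic (ZMod p) (c i)) ∧
          SatI k Id m c) → AllResFin k Id) ∧
      (Algebra.IsAlgebraic (ZMod p) k →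
        (AllResFin k Id ↔ ∃ (m : ℕ) (c : ℕ → k), (∃ i ≤ m, c i ≠ 0) ∧ SatI k Id m c) ∧
        ((2 : k) ≠ 0 → ∀ [Primcodable k] [Q2.CompField k],
          (AllResFinDec k Id ↔ ∃ (m : ℕ) (c : ℕ → k), (∃ i ≤ m, c i ≠ 0) ∧ SatI k Id m c)))) ∧
    (∀ (D : ℕ) (ι : Type u) (E : ι → Type u) [∀ i, Field (E i)] [∀ i, Algebra k (E i)]
      (A : ι → Type u) [∀ i, LieRing (A i)] [∀ i, LieAlgebra k (A i)] [∀ i, LieAlgebra (E i) (A i)]
      [∀ i, IsScalarTower k (E i) (A i)] [∀ i, FiniteDimensional (E i) (A i)],
      (∀ i, Module.finrank (E i) (A i) ≤ D) →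
      ResBounded k {g : FreeLieAlgebra k ℕ | ∀ i, ∀ ρ : ℕ → A i, FreeLieAlgebra.lift k ρ g = 0}) := by
  refine ⟨fun Id => ⟨fun h => Nec1.necessary k Id h, ?_⟩, ?_, ?_⟩
  · intro h2 _ _ h
    exact Q2.dw k h2 Id h
  · intro p _ _ Id hRB
    have hM : ModelProp.{u} := model baseChg (oneClass decId)
    have hP : PackProp.{u} := pack tauPoly altEnd
    have hs : Algebra.IsAlgebraic (ZMod p) k →
        (∃ (m : ℕ) (c : ℕ → k), (∃ i ≤ m, c i ≠ 0) ∧ SatI k Id m c) → AllResFin k Id := by
      rintro hk ⟨m, co, hne, hI⟩ L _ _ hL
      exact rep_final core' hM hP p Id hRB m co hne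
        (fun i _ => Algebra.IsAlgebraic.isAlgebraic (co i)) hI L hL
    refine ⟨?_, fun hk => ⟨⟨Nec1.necessary k Id, hs hk⟩, ?_⟩⟩
    · rintro ⟨m, co, hne, halg, hI⟩ L _ _ hL
      exact rep_final core' hM hP p Id hRB m co hne halg hI L hL
    · intro h2 _ _
      refine ⟨Q2.dw k h2 Id, ?_⟩
      rintro h L _ _ ⟨n, π, S, hs1, hk1, -⟩
      exact hs hk h L ⟨n, π, S, hs1, hk1⟩
  · intro D ι E _ _ A _ _ _ _ _ hD
    exact resBdd_family D ι E A hD

end Pool.Agent.Results.MP_240c17_al.Representable
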