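import Pool.Agent.Lib.MP_240c17_al.Necessary
import Pool.Agent.Lib.MP_240c17_al.Two.Mod
import Pool.Agent.Lib.MP_240c17_al.Two.Hilbert
import Pool.Agent.Lib.MP_240c17_al.Two.Rfd
import Pool.Agent.Lib.MP_240c17_al.Two.Ann
import Pool.Agent.Lib.MP_240c17_al.Two.Integral
import Pool.Agent.Lib.MP_240c17_al.Two.Closed
import Pool.Agent.Lib.MP_240c17_al.Two.LieGen
import Pool.Agent.Lib.MP_240c17_al.Tor.Vand
import Pool.Agent.Lib.MP_240c17_al.Tor.OpPoly
import Pool.Agent.Lib.MP_240c17_al.Tor.Xfg
import Pool.Agent.Lib.MP_240c17_al.Tor.X0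
import Pool.Agent.Lib.MP_240c17_al.Tor.ClosedT
import Pool.Agent.Lib.MP_240c17_al.Tor.ClosedQ
import Pool.Agent.Lib.MP_240c17_al.Tor.Rel
import Pool.Agent.Lib.MP_240c17_al.Tor.Finish
import Pool.Agent.Lib.MP_240c17_al.Semi.Sl2Vp
import Pool.Agent.Lib.MP_240c17_al.Semi.Ev
import Pool.Agent.Lib.MP_240c17_al.Semi.Mul
import Pool.Agent.Lib.MP_240c17_al.Semi.MulRel
import Pool.Agent.Lib.MP_240c17_al.Semi.Noeth
import Pool.Agent.Lib.MP_240c17_al.Semi.Nodes
import Pool.Agent.Lib.MP_240c17_al.Semi.VpGood
import Pool.Agent.Lib.MP_240c17_al.Semi.Ext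
import Pool.Agent.Lib.MP_240c17_al.Semi.Ident
import Pool.Agent.Lib.MP_240c17_al.Semi.BaseKill
import Pool.Agent.Lib.MP_240c17_al.Semi.RootPair
import Pool.Agent.Lib.MP_240c17_al.Semi.Root
import Pool.Agent.Lib.MP_240c17_al.Semi.Sl2Hom
import Pool.Agent.Lib.MP_240c17_al.Semi.Sl2Id
import Pool.Agent.Lib.MP_240c17_al.Semi.Final
import Pool.Agent.Lib.MP_240c17_al.Semi.Heis
import Pool.Agent.Lib.MP_240c17_al.Semi.Root2
import Pool.Agent.Lib.MP_240c17_al.Semi.Fin2
import Pool.Agent.Lib.MP_240c17_al.Q2.Fin
import Pool.Agent.Lib.MP_240c17_al.Q2.Abc.Final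

/-!
# Varieties generated by semisimple Lie algebras

(1) Let `k` be an infinite field of characteristic different from two. All algebras which are finitely presented
relative to the variety generated by `sl₂(k)` are residually finite dimensional.

(2) Let `k` be a field of characteristic zero and `V` a variety generated by a nonempty family of nonzero finite
dimensional semisimple Lie algebras over `k`. The following are equivalent: all algebras which are finitely presented
relative to `V` are residually finite dimensional; all (absolutely) finitely presented algebras in `V` are residually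
finite dimensional; the same for the algebras with decidable word problem, in both readings (for computable `k`); `V` is
the variety generated by `sl₂(k)`.

Method for (1): `sl₂` satisfies `[a, [b, c]] = t(a, b) c - t(a, c) b`, so in the relatively free algebra `F` (functions with
values in `sl₂`) `t(y, y) [a, b] = [y, [y, [a, b]]] - [[y, a], [y, b]]`, and the multiplications with the functions `t(y, y')`
are `F`-linear operators on `F'`, for which `F'` is a Noetherian module; `t(y, y) [a, y] = [a, y, y, y]` relates them to the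
adjoint action.  For (2): if two roots do not commute (over the algebraic closure) then `A ⊗ K` contains `k² ⋉ Heis₃`,
which generates `N₂A`, and `N₂A` contains a finitely presented algebra with decidable word problem that is not residually
finite dimensional; otherwise `A ⊗ K` is a sum of commuting copies of `sl₂(K)`.
-/

set_option autoImplicit false

namespace Pool.Agent.Results.MP_240c17_al.Semisimple

open Pool.Agent.Lib.MP_240c17_al Pool.Agent.Lib.MP_240c17_al.Two Pool.Agent.Lib.MP_240c17_al.Tor
  Pool.Agent.Lib.MP_240c17_al.Semi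

universe u

theorem good_sl2 (k : Type u) [Field k] [Infinite k] (h2 : (2 : k) ≠ 0) :
    Good k (idOf k (sl2 k)) := by
  have hCQ : ClosedQProp.{u} := closedQ (closedT x0)
  obtain ⟨t, ht⟩ := sl2Vp k
  exact vpGood ev_ mul_ mulRel noeth_ nodes
    (finish (rfd mod_) (annRel (ann mod_)) (sepFd (rfd mod_)) hCQ) xfg pwPoly momSpan idealGen
    derFc k h2 (sl2 k) t ht

/-- the identities of `sl₂(k)` -/
def IdSl2 (k : Type u) [Field k] : Set (FreeLieAlgebra k ℕ) :=
  {g | ∀ ρ : ℕ → LieAlgebra.SpecialLinear.sl (Fin 2) k, FreeLieAlgebra.lift k ρ g = 0}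

/-- the common identities of the algebras `A i` -/
def IdFam (k : Type u) [Field k] {ι : Type u} (A : ι → Type u) [∀ i, LieRing (A i)]
    [∀ i, LieAlgebra k (A i)] : Set (FreeLieAlgebra k ℕ) :=
  {g | ∀ i, ∀ ρ : ℕ → A i, FreeLieAlgebra.lift k ρ g = 0}

/-- Q1, relative reading -/
def Q1Rel (k : Type u) [Field k] (Id : Set (FreeLieAlgebra k ℕ)) : Prop :=
  ∀ (L : Type u) [LieRing L] [LieAlgebra k L], RelFinitelyPresented Id L →
    ResiduallyFiniteDimensional k L

/-- Q1, absolute reading -/
def Q1Abs (k : Type u) [Field k] (Id : Set (FreeLieAlgebra k ℕ)) : Prop :=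
  ∀ (L : Type u) [LieRing L] [LieAlgebra k L], InVariety Id L → Q2.AbsFP k L →
    ResiduallyFiniteDimensional k L

/-- Q2, relative reading -/
def Q2Rel (k : Type u) [Field k] [Primcodable k] (Id : Set (FreeLieAlgebra k ℕ)) : Prop :=
  ∀ (L : Type u) [LieRing L] [LieAlgebra k L], Q2.RelFPDec Id L → ResiduallyFiniteDimensional k L

/-- Q2, absolute reading -/
def Q2Abs (k : Type u) [Field k] [Primcodable k] (Id : Set (FreeLieAlgebra k ℕ)) : Prop :=
  ∀ (L : Type u) [LieRing L] [LieAlgebra k L], InVariety Id L → Q2.AbsFPDec k L →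
    ResiduallyFiniteDimensional k L

/-- an absolute presentation of an algebra of `V` is a presentation relative to `V` -/
theorem abs_rel (k : Type u) [Field k] (Id : Set (FreeLieAlgebra k ℕ)) (h : Q1Rel k Id) :
    Q1Abs k Id := by
  rintro L _ _ hL ⟨n, π, S, hs, hk⟩
  refine h L ⟨n, π, S, hs, ?_⟩
  rw [← hk]
  refine (sup_eq_right.mpr ?_).symm
  unfold verbalIdeal
  rw [LieSubmodule.lieSpan_le]
  rintro w ⟨g, hg, ρ, rfl⟩
  show FreeLieAlgebra.lift k ρ g ∈ π.ker
  rw [LieHom.mem_ker, ← LieHom.comp_apply]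
  have h2 : π.comp (FreeLieAlgebra.lift k ρ) = FreeLieAlgebra.lift k (fun i => π (ρ i)) := by
    apply FreeLieAlgebra.hom_ext
    intro i
    simp
  rw [h2]
  exact hL g hg _

/-- (1) Let `k` be an infinite field of characteristic `≠ 2`. All algebras finitely presented relative to the
variety of `sl₂(k)` are residually finite dimensional. (2) Let moreover `k` be of characteristic zero and let
`V` be the variety generated by a nonempty family `A i` of nonzero finite dimensional Lie algebras with trivial
solvable radical (`V` is given by the set of the common identities of the `A i`). All algebras finitely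
presented relative to `V` are residually finite dimensional if and only if the identities of `V` are the
identities of `sl₂(k)`, and the same holds for the (absolutely) finitely presented algebras in `V`; if `k` is
computable, both statements hold for the algebras with decidable word problem. -/
theorem result (k : Type u) [Field k] [Infinite k] (h2 : (2 : k) ≠ 0) :
    Q1Rel k (IdSl2 k) ∧
    ∀ [CharZero k] (ι : Type u) [Nonempty ι] (A : ι → Type u) [∀ i, LieRing (A i)]
      [∀ i, LieAlgebra k (A i)] [∀ i, FiniteDimensional k (A i)] [∀ i, Nontrivial (A i)]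
      [∀ i, LieAlgebra.HasTrivialRadical k (A i)],
      (Q1Rel k (IdFam k A) ↔ IdFam k A = IdSl2 k) ∧
      (Q1Abs k (IdFam k A) ↔ IdFam k A = IdSl2 k) ∧
      ∀ [Primcodable k] [Q2.CompField k],
        (Q2Rel k (IdFam k A) ↔ IdFam k A = IdSl2 k) ∧
        (Q2Abs k (IdFam k A) ↔ IdFam k A = IdSl2 k) := by
  have hS : Q1Rel k (IdSl2 k) := good_sl2 k h2
  refine ⟨hS, ?_⟩
  intro _ ι _ A _ _ _ _ _
  have hd := semi_dich' ext_ baseKill sl2Hom (sl2Id ext_ sl2Hom) k ι A
  have a1 : Q1Abs k (IdFam k A) → IdFam k A = IdSl2 k := by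
    intro h
    refine hd.resolve_right fun hc => ?_
    obtain ⟨J, S, hJ, hid, hn, -⟩ := Q2.ab k h2
    exact hn (h _ (hc _ hid) ⟨6, qMk J, S, qMk_surjective J, by rw [qMk_ker]; exact hJ⟩)
  have a2 : ∀ [Primcodable k] [Q2.CompField k], Q2Abs k (IdFam k A) → IdFam k A = IdSl2 k := by
    intro _ _ h
    refine hd.resolve_right fun hc => ?_
    obtain ⟨J, S, hJ, hid, hn, hd⟩ := Q2.ab k h2
    exact hn (h _ (hc _ hid) ⟨6, qMk J, S, qMk_surjective J, by rw [qMk_ker]; exact hJ, hd⟩)
  have b : IdFam k A = IdSl2 k → Q1Rel k (IdFam k A) := by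
    intro h
    rw [h]
    exact hS
  refine ⟨⟨fun h => a1 (abs_rel k _ h), b⟩, ⟨a1, fun h => abs_rel k _ (b h)⟩, ?_⟩
  intro _ _
  refine ⟨⟨?_, ?_⟩, ⟨a2, ?_⟩⟩
  · intro h
    refine a2 ?_
    rintro L _ _ hL ⟨n, π, S, hs, hk, hD⟩
    refine h L ⟨n, π, S, hs, ?_, hD⟩
    rw [← hk]
    refine (sup_eq_right.mpr ?_).symm
    unfold verbalIdeal
    rw [LieSubmodule.lieSpan_le]
    rintro w ⟨g, hg, ρ, rfl⟩
    show FreeLieAlgebra.lift k ρ g ∈ π.ker
    rw [LieHom.mem_ker, ← LieHom.comp_apply]
    have h2 : π.comp (FreeLieAlgebra.lift k ρ) = FreeLieAlgebra.lift k (fun i => π (ρ i)) := by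
      apply FreeLieAlgebra.hom_ext
      intro i
      simp
    rw [h2]
    exact hL g hg _
  · rintro h L _ _ ⟨n, π, S, hs, hk, -⟩
    exact b h L ⟨n, π, S, hs, hk⟩
  · rintro h L _ _ hL ⟨n, π, S, hs, hk, -⟩
    exact abs_rel k _ (b h) L hL ⟨n, π, S, hs, hk⟩

end Pool.Agent.Results.MP_240c17_al.Semisimple
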