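import Pool.Agent.Lib.MP_240c17_al.Necessary
import Pool.Agent.Lib.MP_240c17_al.Two.Mod
import Pool.Agent.Lib.MP_240c17_al.Two.Hilbert
import Pool.Agent.Lib.MP_240c17_al.Two.Rfd
import Pool.Agent.Lib.MP_240c17_al.Two.Ann
import Pool.Agent.Lib.MP_240c17_al.Two.Integral
import Pool.Agent.Lib.MP_240c17_al.Two.Closed
import Pool.Agent.Lib.MP_240c17_al.Tor.Frob
import Pool.Agent.Lib.MP_240c17_al.Tor.PolyDiv
import Pool.Agent.Lib.MP_240c17_al.Tor.Torsion
import Pool.Agent.Lib.MP_240c17_al.Tor.Bounded
import Pool.Agent.Lib.MP_240c17_al.Tor.Vand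
import Pool.Agent.Lib.MP_240c17_al.Tor.LinExt
import Pool.Agent.Lib.MP_240c17_al.Tor.OpPoly
import Pool.Agent.Lib.MP_240c17_al.Tor.MidLin
import Pool.Agent.Lib.MP_240c17_al.Tor.StrLin
import Pool.Agent.Lib.MP_240c17_al.Tor.Xfg
import Pool.Agent.Lib.MP_240c17_al.Tor.X0
import Pool.Agent.Lib.MP_240c17_al.Tor.ClosedT
import Pool.Agent.Lib.MP_240c17_al.Tor.ClosedQ
import Pool.Agent.Lib.MP_240c17_al.Tor.Rel
import Pool.Agent.Lib.MP_240c17_al.Tor.Finish
import Pool.Agent.Lib.MP_240c17_al.Sol.Unb
import Pool.Agent.Lib.MP_240c17_al.Sol.Exp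
import Pool.Agent.Lib.MP_240c17_al.Sol.OpPol
import Pool.Agent.Lib.MP_240c17_al.Sol.Nil
import Pool.Agent.Lib.MP_240c17_al.Sol.Pbw
import Pool.Agent.Lib.MP_240c17_al.Sol.FcStep
import Pool.Agent.Lib.MP_240c17_al.Sol.CofD
import Pool.Agent.Lib.MP_240c17_al.Sol.Gfg
import Pool.Agent.Lib.MP_240c17_al.Sol.KfgD
import Pool.Agent.Lib.MP_240c17_al.Sol.Core
import Pool.Agent.Lib.MP_240c17_al.Sol.RedCore
import Pool.Agent.Lib.MP_240c17_al.Sol.Tietze
import Pool.Agent.Lib.MP_240c17_al.Sol.Suff
import Pool.Agent.Lib.MP_240c17_al.Sol.Top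
import Pool.Agent.Lib.MP_240c17_al.Sol.WordExp
import Pool.Agent.Lib.MP_240c17_al.Sol.SlotBal
import Pool.Agent.Lib.MP_240c17_al.Sol.SameBal
import Pool.Agent.Lib.MP_240c17_al.Sol.DiffBal
import Pool.Agent.Lib.MP_240c17_al.Sol.MonoSpan
import Pool.Agent.Lib.MP_240c17_al.Sol.MonoPw
import Pool.Agent.Lib.MP_240c17_al.Sol.Perm
import Pool.Agent.Lib.MP_240c17_al.Sol.FacMod
import Pool.Agent.Lib.MP_240c17_al.Sol.Shift
import Pool.Agent.Lib.MP_240c17_al.Sol.Assign
import Pool.Agent.Lib.MP_240c17_al.Sol.Repeat
import Pool.Agent.Lib.MP_240c17_al.Sol.KeyMono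
import Pool.Agent.Lib.MP_240c17_al.Sol.Key
import Pool.Agent.Lib.MP_240c17_al.Sol.ExtGen
import Pool.Agent.Lib.MP_240c17_al.Sol.DE
import Pool.Agent.Lib.MP_240c17_al.Sol.Zs
import Pool.Agent.Lib.MP_240c17_al.Sol.BrnZs
import Pool.Agent.Lib.MP_240c17_al.Sol.SClaim
import Pool.Agent.Lib.MP_240c17_al.Sol.Struct
import Pool.Agent.Lib.MP_240c17_al.Sol.Final
import Pool.Agent.Lib.MP_240c17_al.Q2.Fin

/-!
# Solvable relatively finitely presented Lie algebras in positive characteristic

Let `k` be an infinite field of characteristic `p` and let `V` be any variety of Lie algebras over `k`.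

(1) If `V` satisfies a nontrivial identity `∑ c_i [a y^i, b y^(m-i)] = 0` whose coefficients are algebraic over
the prime field, then every solvable algebra which is finitely presented relative to `V` is residually
finite dimensional.

(2) If `k` is algebraic over its prime field and the relatively finitely presented algebras of `V` are solvable
(for example if `V` is solvable), then they all are residually finite dimensional if and only if
`V` satisfies such an identity.  If moreover `k` is computable and `p ≠ 2`, it is equivalent that the relatively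
finitely presented algebras with decidable word problem are residually finite dimensional.

Method.  Structure theorem: a finitely generated solvable algebra `L` satisfying the identity has an ideal `D` of
finite codimension which is nilpotent and contains all `[a, y, …, y]` (`b` letters `y`, for some `b`).  Then the
relatively free algebra is replaced with its quotient by a term of the lower central series of the preimage of
`D`; the endomorphisms `x_i ↦ x_i + λ [x_i, v, …, v]` pass to the quotient, and linear combinations of them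
make an ideal of finite codimension a Noetherian module over a commutative algebra of operators which commute
with the adjoint action.
-/

set_option autoImplicit false

namespace Pool.Agent.Results.MP_240c17_al.Solvable

open Pool.Agent.Lib.MP_240c17_al Pool.Agent.Lib.MP_240c17_al.Two Pool.Agent.Lib.MP_240c17_al.Tor
  Pool.Agent.Lib.MP_240c17_al.Sol

universe u

theorem core' : CoreProp.{u} := by
  have hCQ : ClosedQProp.{u} := closedQ (closedT x0)
  exact core frob (torsion polyDiv) boundStep unb weights momSpan exp_ linExt pwPoly opPol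
    (strLin midLin lagrange) nil_ (cofD (fcStep pbw)) (gfg pbw) (kfgD pbw) xfg
    (finish (rfd mod_) (annRel (ann mod_)) (sepFd (rfd mod_)) hCQ)

theorem suff' : SuffProp.{u} := suff (redCore core') tietze

theorem struct' : StructProp.{u} := by
  have hSame : SameBalProp.{u} := sameBal wordExp slotBal
  have hDiff : DiffBalProp.{u} := diffBal wordExp slotBal
  have hShift : ShiftProp.{u} := shift hSame hDiff monoPw perm_ facMod
  have hRep : RepeatProp.{u} := repeat_ top_ wordExp perm_
  have hKey : KeyProp.{u} := key (keyMono hShift assign hRep) monoSpan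
  exact struct_ (sClaim extGen hKey (dE (fcStep pbw)) zs brnZs)

/-- Let `V` be a variety of Lie algebras over an infinite field `k` of characteristic `p`. (1) If `V` satisfies a
nontrivial identity `∑_{i=0}^m c_i [[a,y,…,y], [b,y,…,y]] = 0` (`y` occurs `i` times in the first and `m - i`
times in the second factor) with coefficients algebraic over the prime field, then every solvable relatively
finitely presented algebra of `V` is residually finite dimensional. (2) If `k` is algebraic over the prime
field and all relatively finitely presented algebras of `V` are solvable, then all of them are residually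
finite dimensional if and only if `V` satisfies a nontrivial identity of this form; if moreover `k` is computable and
`p ≠ 2`, then also those with decidable word problem are residually finite dimensional if and only if `V` satisfies a
nontrivial identity of this form. -/
theorem result (k : Type u) [Field k] [Infinite k] (p : ℕ) [Fact p.Prime] [Algebra (ZMod p) k]
    (Id : Set (FreeLieAlgebra k ℕ)) :
    ((∃ (m : ℕ) (co : ℕ → k), (∃ i ≤ m, co i ≠ 0) ∧ (∀ i ≤ m, IsAlgebraic (ZMod p) (co i)) ∧
        ∀ (L : Type u) [LieRing L] [LieAlgebra k L], InVariety Id L → ∀ a b y : L,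
          ∑ i ∈ Finset.range (m + 1),
            co i • ⁅(fun l => ⁅l, y⁆)^[i] a, (fun l => ⁅l, y⁆)^[m - i] b⁆ = 0) →
      ∀ (L : Type u) [LieRing L] [LieAlgebra k L], RelFinitelyPresented Id L →
        LieAlgebra.IsSolvable L → ResiduallyFiniteDimensional k L) ∧
    (Algebra.IsAlgebraic (ZMod p) k →
      (∀ (L : Type u) [LieRing L] [LieAlgebra k L], RelFinitelyPresented Id L →
        LieAlgebra.IsSolvable L) →
      ((∀ (L : Type u) [LieRing L] [LieAlgebra k L], RelFinitelyPresented Id L →
        ResiduallyFiniteDimensional k L) ↔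
      ∃ (m : ℕ) (co : ℕ → k), (∃ i ≤ m, co i ≠ 0) ∧
        ∀ (L : Type u) [LieRing L] [LieAlgebra k L], InVariety Id L → ∀ a b y : L,
          ∑ i ∈ Finset.range (m + 1),
            co i • ⁅(fun l => ⁅l, y⁆)^[i] a, (fun l => ⁅l, y⁆)^[m - i] b⁆ = 0) ∧
      ((2 : k) ≠ 0 → ∀ [Primcodable k] [Q2.CompField k],
        ((∀ (L : Type u) [LieRing L] [LieAlgebra k L], Q2.RelFPDec Id L →
          ResiduallyFiniteDimensional k L) ↔
        ∃ (m : ℕ) (co : ℕ → k), (∃ i ≤ m, co i ≠ 0) ∧
          ∀ (L : Type u) [LieRing L] [LieAlgebra k L], InVariety Id L → ∀ a b y : L,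
            ∑ i ∈ Finset.range (m + 1),
              co i • ⁅(fun l => ⁅l, y⁆)^[i] a, (fun l => ⁅l, y⁆)^[m - i] b⁆ = 0))) := by
  refine ⟨?_, ?_⟩
  · rintro ⟨m, co, hne, halg, hI⟩ L _ _ hL hsol
    exact sol_final suff' struct' p Id m co hne halg hI L hL hsol
  · intro hk hS
    have hs : (∃ (m : ℕ) (co : ℕ → k), (∃ i ≤ m, co i ≠ 0) ∧
        ∀ (L : Type u) [LieRing L] [LieAlgebra k L], InVariety Id L → ∀ a b y : L,
          ∑ i ∈ Finset.range (m + 1),
            co i • ⁅(fun l => ⁅l, y⁆)^[i] a, (fun l => ⁅l, y⁆)^[m - i] b⁆ = 0) →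
        ∀ (L : Type u) [LieRing L] [LieAlgebra k L], RelFinitelyPresented Id L →
          ResiduallyFiniteDimensional k L := by
      rintro ⟨m, co, hne, hI⟩ L _ _ hL
      exact sol_final suff' struct' p Id m co hne
        (fun i _ => Algebra.IsAlgebraic.isAlgebraic (co i)) hI L hL (hS L hL)
    refine ⟨⟨Nec1.necessary k Id, hs⟩, ?_⟩
    intro h2 _ _
    refine ⟨Q2.dw k h2 Id, ?_⟩
    rintro h L _ _ ⟨n, π, S, hs1, hk1, -⟩
    exact hs h L ⟨n, π, S, hs1, hk1⟩

end Pool.Agent.Results.MP_240c17_al.Solvable
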